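import Mathlib
import Pool.Agent.LeoT.Stmts
import Pool.Agent.Helper19_LeoK.Gup3
import Pool.Agent.Helper79_LeoK.TwiB
import Pool.Agent.Helper69_LeoK.Nmf
import Pool.Agent.Helper68_LeoC.Good

/-!
# UPQ: going up in a cyclic cubic extension with one tame prime
-/

set_option autoImplicit false

open NumberField IsDedekindDomain WithZero Module Polynomial
open Pool.Agent.Leo3 Pool.Agent.LeoK
open Pool.Agent.Leo3.H83 (val_equiv inLoc_mul inLoc_inv inLoc_self locCube_map locCube_mul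
  locCube_inv eq_one_of_cube)
open Pool.Agent.LeoK.H19 (valCube3_map valCube3_mul valCube3_inv valCube3_cube)

namespace Pool.Agent.LeoT.H68

/-- the norm of an element which is locally a cube. -/
theorem locCube_norm {k K : Type} [Field k] [NumberField k] [Field K] [NumberField K] [Algebra k K]
    (hF : finrank k K = 2) (hmu : NoMu K) {z : K} (hloc : LocCube z) :
    LocCube (Algebra.norm k z) := by
  have := Pool.Agent.LeoK.H69.fin_of hF
  obtain ⟨τ, hτ⟩ := Pool.Agent.LeoK.H69.exists_tau hF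
  have hn := Pool.Agent.LeoK.H69.norm_eq hF hτ z
  intro φ₀
  obtain ⟨φ, hφ⟩ := Pool.Agent.LeoK.H69.exists_ext (K := K) φ₀
  obtain ⟨t, ht, ht3⟩ := hloc φ
  obtain ⟨t', ht', ht3'⟩ := hloc (φ.comp (τ : K →+* K))
  have ht'' : InLoc φ t' := fun ρ hρ => ht' ρ (fun x => hρ (τ x))
  refine ⟨t * t', ?_, ?_⟩
  · rw [← hφ]
    refine Pool.Agent.LeoK.H69.inLoc_down hmu τ hF hτ φ (inLoc_mul ht ht'')
      (y := Algebra.norm k z) ?_
    rw [mul_pow, ht3, ht3', hn, map_mul]
    rfl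
  · rw [mul_pow, ht3, ht3', ← hφ]
    have h1 : (φ.comp (algebraMap k K)) (Algebra.norm k z) = φ (z * τ z) := by
      rw [← hn]
      rfl
    rw [h1, map_mul]
    rfl

/-- the prime below does not contain `l`. -/
theorem notMem_of_over {K L : Type} [Field K] [NumberField K] [Field L] [NumberField L]
    [Algebra K L] {l : ℕ} (q : HeightOneSpectrum (𝓞 K)) (w : HeightOneSpectrum (𝓞 L))
    (h : w.asIdeal.LiesOver q.asIdeal) (hl : (l : 𝓞 K) ∉ q.asIdeal) : (l : 𝓞 L) ∉ w.asIdeal := by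
  intro h6
  apply hl
  rw [h.over, Ideal.mem_under, map_natCast]
  exact h6

theorem valCubeQ_norm {k K : Type} [Field k] [NumberField k] [Field K] [NumberField K]
    [Algebra k K] (hF : finrank k K = 2) {l : ℕ} {z : K} (hv : ValCubeQ l z) :
    ValCubeQ l (Algebra.norm k z) := by
  have := Pool.Agent.LeoK.H69.fin_of hF
  obtain ⟨τ, hτ⟩ := Pool.Agent.LeoK.H69.exists_tau hF
  have hn := Pool.Agent.LeoK.H69.norm_eq hF hτ z
  intro q hq hl
  obtain ⟨w, hw, h3⟩ := Pool.Agent.LeoK.H79.exists_above (L := K) q hq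
  have hlw := notMem_of_over q w hw hl
  obtain ⟨x, hx⟩ := hv w h3 hlw
  have h5 := val_equiv (τ : K ≃+* K) w z
  obtain ⟨y, hy⟩ := hv (HeightOneSpectrum.comap (RingOfIntegers.mapRingEquiv (τ : K ≃+* K) :
      𝓞 K →+* 𝓞 K) (RingOfIntegers.mapRingEquiv (τ : K ≃+* K)).surjective w) (by
      intro h
      apply h3
      have h' : (RingOfIntegers.mapRingEquiv (τ : K ≃+* K) : 𝓞 K →+* 𝓞 K) 3 ∈ w.asIdeal := h
      rwa [map_ofNat] at h') (by
      intro h
      apply hlw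
      have h' : (RingOfIntegers.mapRingEquiv (τ : K ≃+* K) : 𝓞 K →+* 𝓞 K) l ∈ w.asIdeal := h
      rwa [map_natCast] at h')
  have h6 := Pool.Agent.LeoK.H79.val_pow q w hw (Algebra.norm k z)
  refine Pool.Agent.LeoK.H79.cube_of_pow (x := x * y)
    (Pool.Agent.LeoK.H79.ram_le (K := k) hF w) ?_
  rw [h6, hn, map_mul, mul_pow, ← hx, ← hy, ← h5]
  rfl

/-- one prime above `l`: no new elements. -/
theorem valCube3_of {k K : Type} [Field k] [NumberField k] [Field K] [NumberField K] [Algebra k K]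
    (hF : finrank k K = 2) (hmu : NoMu K) {l : ℕ} (hone : OneP K l) (hpr : PrimQ k l) {z : K}
    (hz : z ≠ 0) (hv : ValCubeQ l z) (hloc : LocCube z) : ValCube3 z := by
  have := Pool.Agent.LeoK.H69.fin_of hF
  obtain ⟨τ, hτ⟩ := Pool.Agent.LeoK.H69.exists_tau hF
  have hn := Pool.Agent.LeoK.H69.norm_eq hF hτ z
  have hτz : τ z ≠ 0 := by simpa using hz
  have hN0 : Algebra.norm k z ≠ 0 := by
    intro h
    rw [h, map_zero] at hn
    rcases mul_eq_zero.mp hn.symm with h1 | h1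
    · exact hz h1
    · exact hτz h1
  have h1 := Pool.Agent.LeoC.H68.valCube3_up (L := K)
    (hpr _ hN0 (valCubeQ_norm hF hv) (locCube_norm hF hmu hloc))
  intro q hq
  by_cases hl : (l : 𝓞 K) ∈ q.asIdeal
  · have h5 := val_equiv (τ : K ≃+* K) q z
    have h6 : HeightOneSpectrum.comap (RingOfIntegers.mapRingEquiv (τ : K ≃+* K) : 𝓞 K →+* 𝓞 K)
        (RingOfIntegers.mapRingEquiv (τ : K ≃+* K)).surjective q = q := by
      apply hone _ _ _ hl
      change (RingOfIntegers.mapRingEquiv (τ : K ≃+* K) : 𝓞 K →+* 𝓞 K) l ∈ q.asIdeal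
      rwa [map_natCast]
    rw [h6] at h5
    obtain ⟨x, hx⟩ := h1 q hq
    rw [hn, map_mul] at hx
    refine Pool.Agent.LeoK.H79.cube_of_pow (x := x) (e := 2) (by norm_num) ?_
    rw [pow_two, ← hx]
    congr 1
    exact h5.symm
  · exact hv q hq hl

section main

variable {K L : Type} [Field K] [NumberField K] [Field L] [NumberField L] [Algebra K L]

theorem valCubeQ_down {l : ℕ} (hU : UnrOutQ l K L) {k : K} (h : ValCube3 (algebraMap K L k)) :
    ValCubeQ l k := by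
  intro q hq hl
  have hqm : q.asIdeal.IsMaximal := q.isPrime.isMaximal q.ne_bot
  obtain ⟨P, hPm, hPo⟩ := Ideal.exists_maximal_ideal_liesOver_of_isIntegral q.asIdeal (S := 𝓞 L)
  have hPp : P.IsPrime := hPm.isPrime
  have hPb : P ≠ ⊥ := by
    rintro rfl
    apply q.ne_bot
    have h1 := hPo.over
    rw [h1]
    exact Ideal.under_bot (𝓞 K) (𝓞 L)
  have hm : (3 : 𝓞 L) ∉ P := by
    intro hm
    apply hq
    rw [hPo.over, Ideal.mem_under]
    rw [map_ofNat]
    exact hm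
  have hml : (l : 𝓞 L) ∉ P := by
    intro hm
    apply hl
    rw [hPo.over, Ideal.mem_under]
    rw [map_natCast]
    exact hm
  have hu := hU P hPb hm hml
  let w : HeightOneSpectrum (𝓞 L) := ⟨P, hPp, hPb⟩
  have hwl : w.asIdeal.LiesOver q.asIdeal := hPo
  have hram : q.asIdeal.ramificationIdx' w.asIdeal = 1 := by
    have h2 : q.asIdeal.ramificationIdx' P = P.ramificationIdx (𝓞 K) :=
      Ideal.ramificationIdx'_eq_ramificationIdx q.asIdeal P q.ne_bot
    have h3 : P.ramificationIdx (𝓞 K) = 1 := Ideal.ramificationIdx_eq_one P (𝓞 K)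
    exact h2.trans h3
  have hv := HeightOneSpectrum.valuation_liesOver (K := K) L q w k
  rw [hram, pow_one] at hv
  rw [hv]
  exact h w hm

theorem step [IsGalois K L] {l : ℕ} (hU : UnrOutQ l K L) (hK : NoMu K) (σ : L ≃ₐ[K] L)
    (hσ : ∀ τ : L ≃ₐ[K] L, τ ∈ Subgroup.zpowers σ)
    (hdesc : ∀ (φ : L →+* Om) (t : Om), InLoc φ t →
        InLoc (φ.comp (algebraMap K L)) (t ^ 3) → InLoc (φ.comp (algebraMap K L)) t)
    (hW : ∀ z : K, z ≠ 0 → ValCubeQ l z → LocCube z → ∃ t : K, t ^ 3 = z)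
    (w : L) (hw0 : w ≠ 0) (hwv : ValCube3 w) (hwl : LocCube w)
    (ht : ∃ t : L, t ^ 3 = σ w / w) : ∃ y : L, y ^ 3 = w := by
  obtain ⟨t, ht⟩ := ht
  have hwt : σ w = w * t ^ 3 := by rw [ht]; field_simp
  have hfin : FiniteDimensional K L := Module.Finite.of_restrictScalars_finite ℚ K L
  -- norm
  have hn3 : (Algebra.norm K t) ^ 3 = 1 := by
    have h1 : Algebra.norm K w * (Algebra.norm K t) ^ 3 = Algebra.norm K w * 1 := by
      rw [← map_pow, ← map_mul, ← hwt, mul_one, Algebra.norm_eq_of_algEquiv σ w]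
    exact mul_left_cancel₀ (by rw [Ne, Algebra.norm_eq_zero_iff]; exact hw0) h1
  have hn : Algebra.norm K t = 1 := eq_one_of_cube hK hn3
  have hcyc : IsCyclic (L ≃ₐ[K] L) := ⟨σ, hσ⟩
  obtain ⟨s, hs⟩ := groupCohomology.exists_div_of_norm_eq_one hσ hn
  have hs0 : (s : L) ≠ 0 := s.ne_zero
  have hσs : σ (s : L) ≠ 0 := by
    intro h
    exact hs0 (by simp at h)
  have hs' : t * σ (s : L) = s := by
    rw [← hs]
    exact div_mul_cancel₀ _ hσs
  -- invariance
  have hinv : σ (w * (s : L) ^ 3) = w * (s : L) ^ 3 := by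
    rw [map_mul, map_pow, hwt, mul_assoc, ← mul_pow, hs']
  have hall : ∀ τ : L ≃ₐ[K] L, τ (w * (s : L) ^ 3) = w * (s : L) ^ 3 := by
    intro τ
    obtain ⟨n, rfl⟩ := Subgroup.mem_zpowers_iff.mp (hσ τ)
    have hstab : σ ∈ MulAction.stabilizer (L ≃ₐ[K] L) (w * (s : L) ^ 3) := hinv
    exact (Subgroup.zpow_mem _ hstab n : σ ^ n ∈ MulAction.stabilizer (L ≃ₐ[K] L) (w * (s : L) ^ 3))
  have hbot := (IsGalois.mem_bot_iff_fixed (F := K) (E := L) (w * (s : L) ^ 3)).mpr hall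
  obtain ⟨k, hk⟩ := IntermediateField.mem_bot.mp hbot
  have hk0 : k ≠ 0 := by
    rintro rfl
    rw [map_zero] at hk
    exact mul_ne_zero hw0 (pow_ne_zero 3 hs0) hk.symm
  have hkv : ValCubeQ l k := by
    apply valCubeQ_down hU
    rw [hk]
    exact valCube3_mul hwv (valCube3_cube _)
  have hkl : LocCube k := by
    intro φ
    obtain ⟨ψ, hψ⟩ := Pool.Agent.Leo3.H83.exists_ext K L φ
    obtain ⟨u, hu, hu3⟩ := hwl ψ
    have h3 : (u * ψ s) ^ 3 = φ k := by
      rw [mul_pow, hu3, ← map_pow, ← map_mul, ← hk, ← hψ]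
      rfl
    refine ⟨u * ψ s, ?_, h3⟩
    rw [← hψ]
    apply hdesc ψ _ (inLoc_mul hu (inLoc_self ψ _))
    rw [h3, hψ]
    exact inLoc_self φ k
  obtain ⟨y, hy⟩ := hW k hk0 hkv hkl
  refine ⟨algebraMap K L y / s, ?_⟩
  rw [div_pow, ← map_pow, hy, hk]
  field_simp

/-- one step going up. -/
theorem gupStepQ [IsGalois K L] {l : ℕ} (h3 : finrank K L = 3) (hU : UnrOutQ l K L) (hK : NoMu K)
    (hW : ∀ z : K, z ≠ 0 → ValCubeQ l z → LocCube z → ∃ t : K, t ^ 3 = z) :
    NoMu L ∧ W3 L := by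
  have hfin : FiniteDimensional K L := Module.Finite.of_restrictScalars_finite ℚ K L
  obtain ⟨hL, hdesc⟩ := Pool.Agent.Leo3.H11.loc K L h3 hK
  refine ⟨hL, ?_⟩
  have hcard : Nat.card (L ≃ₐ[K] L) = 3 := by
    rw [IsGalois.card_aut_eq_finrank, h3]
  have hp : Fact (Nat.Prime 3) := ⟨Nat.prime_three⟩
  obtain ⟨σ, hσ⟩ := (isCyclic_of_prime_card hcard).exists_generator
  have hσ3 : ∀ x : L, σ (σ (σ x)) = x := by
    intro x
    have h : σ ^ 3 = 1 := by
      rw [← hcard]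
      exact pow_card_eq_one'
    have h2 : (σ ^ 3 : L ≃ₐ[K] L) x = x := by rw [h]; rfl
    exact h2
  intro z hz0 hzv hzl
  -- closure of the class under `w ↦ σ w / w`
  have hcl : ∀ w : L, w ≠ 0 ∧ ValCube3 w ∧ LocCube w →
      σ w / w ≠ 0 ∧ ValCube3 (σ w / w) ∧ LocCube (σ w / w) := by
    rintro w ⟨h0, hv, hl⟩
    have hσw : σ w ≠ 0 := by
      intro h
      exact h0 (by simpa using h)
    refine ⟨div_ne_zero hσw h0, ?_, ?_⟩
    · rw [div_eq_mul_inv]
      exact valCube3_mul (valCube3_map hv (σ : L ≃+* L)) (valCube3_inv hv)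
    · rw [div_eq_mul_inv]
      exact locCube_mul (locCube_map hl (σ : L ≃+* L)) (locCube_inv hl)
  have hst : ∀ w : L, w ≠ 0 ∧ ValCube3 w ∧ LocCube w → (∃ t : L, t ^ 3 = σ w / w) →
      ∃ y : L, y ^ 3 = w := fun w hw ht => step hU hK σ hσ hdesc hW w hw.1 hw.2.1 hw.2.2 ht
  have hz : z ≠ 0 ∧ ValCube3 z ∧ LocCube z := ⟨hz0, hzv, hzl⟩
  have hz1 := hcl _ hz
  have hz2 := hcl _ hz1
  apply hst z hz
  apply hst _ hz1
  apply hst _ hz2
  have hσz : σ z ≠ 0 := by
    intro h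
    exact hz0 (by simpa using h)
  have hσσz : σ (σ z) ≠ 0 := by
    intro h
    exact hσz (by simpa using h)
  refine ⟨σ z / σ (σ z), ?_⟩
  simp only [map_div₀, hσ3]
  field_simp

end main

/-- **UPQ**. -/
theorem upq : UpqStmt := by
  intro k F E _ _ _ _ _ _ _ _ _ l h2 h3 hU hone hpr hmu hW
  refine gupStepQ h3 hU hmu ?_
  intro z hz hv hl
  exact hW z hz (valCube3_of h2 hmu hone hpr hz hv hl) hl

end Pool.Agent.LeoT.H68
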