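import Mathlib
import Pool.Agent.LeoT.Stmts
import Pool.Agent.Helper59_LeoK.Quo
import Pool.Agent.Helper79_LeoK.TwiA
import Pool.Agent.Helper68_LeoT.Upq

/-!
# The primes `l` for the base fields

MP_5f2860_nt.
-/

set_option autoImplicit false

open NumberField IsDedekindDomain WithZero Module Polynomial
open Pool.Agent.Leo3 Pool.Agent.LeoK Pool.Agent.Leo3.H60
open Pool.Agent.LeoK.H59 (prime_aboveq val_ratq inlocq)
open Pool.Agent.Leo3.H83 (val_equiv inLoc_mul inLoc_inv inLoc_self locCube_map locCube_mul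
  locCube_inv eq_one_of_cube)
open Pool.Agent.LeoK.H19 (valCube3_map valCube3_mul valCube3_inv valCube3_cube)

namespace Pool.Agent.LeoT.H68

/-- natural numbers congruent to 2 or 4 modulo 9 are not cubes of 3-adic numbers. -/
lemma not_cube_three {n : ℕ} (hn : n % 9 = 2 ∨ n % 9 = 4) (y : ℚ_[3]) : y ^ 3 ≠ (n : ℚ_[3]) := by
  intro h
  have hn1 : ‖(n : ℚ_[3])‖ ≤ 1 := by
    exact_mod_cast Padic.norm_int_le_one (p := 3) (n : ℤ)
  have hy1 : ‖y‖ ≤ 1 := by
    by_contra hlt
    push Not at hlt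
    have h1 : 1 < ‖y‖ ^ 3 := one_lt_pow₀ hlt (by norm_num)
    rw [← norm_pow, h] at h1
    linarith
  let z : ℤ_[3] := ⟨y, hy1⟩
  have hz : z ^ 3 = (n : ℤ_[3]) := by
    apply Subtype.ext
    push_cast
    exact h
  have h2 := congrArg (PadicInt.toZModPow (p := 3) 2) hz
  rw [map_pow, map_natCast] at h2
  have h3 : ∀ w : ZMod (3 ^ 2), w ^ 3 ≠ 2 ∧ w ^ 3 ≠ 4 := by decide
  have h4 : ((n : ℕ) : ZMod (3 ^ 2)) = ((n % 9 : ℕ) : ZMod (3 ^ 2)) := by
    rw [ZMod.natCast_eq_natCast_iff]
    exact (Nat.mod_modEq n 9).symm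
  rw [h4] at h2
  rcases hn with h5 | h5
  · rw [h5] at h2
    exact (h3 _).1 (by exact_mod_cast h2)
  · rw [h5] at h2
    exact (h3 _).2 (by exact_mod_cast h2)

/-- **PrimQ** for the rational numbers. -/
theorem primq_rat {l : ℕ} (hl : l.Prime) (hl9 : l % 9 = 2) : PrimQ ℚ l := by
  intro z hz hval hloc
  have hl3 : l ≠ 3 := by rintro rfl; norm_num at hl9
  have hlf : Fact l.Prime := ⟨hl⟩
  -- valuations
  have hv : ∀ p : ℕ, p.Prime → p ≠ l → (3 : ℤ) ∣ padicValRat p z := by
    intro p hp hpl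
    have : Fact p.Prime := ⟨hp⟩
    by_cases hp3 : p = 3
    · subst hp3
      obtain ⟨t, ht, h3⟩ := hloc (algebraMap ℚ Om)
      obtain ⟨y, rfl⟩ := inlocq _ t ht
      have hy : y ^ 3 = (z : ℚ_[3]) := by
        apply (algebraMap ℚ_[3] Om).injective
        rw [map_pow, h3, eq_ratCast, map_ratCast]
      have h1 : (z : ℚ_[3]).valuation = padicValRat 3 z := Padic.valuation_ratCast z
      rw [← h1, ← hy, Padic.valuation_pow]
      exact ⟨_, by push_cast; ring⟩
    · obtain ⟨q, hq⟩ := prime_aboveq hp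
      have h3 : (3 : 𝓞 ℚ) ∉ q.asIdeal := by
        have hnd : ¬ p ∣ 3 := fun h => hp3 ((Nat.prime_dvd_prime_iff_eq hp Nat.prime_three).1 h)
        have := natCast_notMem hp hnd q hq
        exact_mod_cast this
      have h4 : (l : 𝓞 ℚ) ∉ q.asIdeal := by
        have hnd : ¬ p ∣ l := fun h => hpl ((Nat.prime_dvd_prime_iff_eq hp hl).1 h)
        exact natCast_notMem hp hnd q hq
      obtain ⟨x, hx⟩ := hval q h3 h4
      rw [val_ratq hp q hq z hz] at hx
      have hx0 : x ≠ 0 := by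
        rintro rfl
        exact exp_ne_zero (hx.trans (by simp))
      rw [← exp_log hx0, ← exp_nsmul] at hx
      have h5 := congrArg log hx
      rw [log_exp, log_exp, nsmul_eq_mul] at h5
      exact ⟨-log x, by push_cast at h5; linarith⟩
  -- the residue of the valuation at l
  have hkey : (3 : ℤ) ∣ padicValRat l z := by
    by_contra hnd
    obtain ⟨r, i, hr, hri⟩ : ∃ (r : ℕ) (i : ℤ), (r = 1 ∨ r = 2) ∧ padicValRat l z = 3 * i + r := by
      have h1 := Int.emod_add_mul_ediv (padicValRat l z) 3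
      have h2 := Int.emod_nonneg (padicValRat l z) (b := 3) (by norm_num)
      have h3 := Int.emod_lt_of_pos (padicValRat l z) (b := 3) (by norm_num)
      have h4 : padicValRat l z % 3 ≠ 0 := fun h => hnd (Int.dvd_of_emod_eq_zero h)
      refine ⟨(padicValRat l z % 3).toNat, padicValRat l z / 3, by omega, by omega⟩
    have hlz : ((l : ℚ) ^ r) ≠ 0 := pow_ne_zero _ (by exact_mod_cast hl.ne_zero)
    have hw : z / (l : ℚ) ^ r ≠ 0 := div_ne_zero hz hlz
    obtain ⟨c, hc⟩ := rat_cube (x := z / (l : ℚ) ^ r) (by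
      intro p hp
      have : Fact p.Prime := ⟨hp⟩
      rw [padicValRat.div hz hlz, padicValRat.pow]
      by_cases hpl : p = l
      · subst hpl
        rw [padicValRat.self hp.one_lt, hri]
        exact ⟨i, by ring⟩
      · have h1 : padicValRat p (l : ℚ) = 0 := by
          rw [padicValRat.of_nat, padicValNat.eq_zero_of_not_dvd]
          · rfl
          · intro h
            exact hpl ((Nat.prime_dvd_prime_iff_eq hp hl).1 h)
        rw [h1, mul_zero, sub_zero]
        exact hv p hp hpl)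
    obtain ⟨t, ht, h3⟩ := hloc (algebraMap ℚ Om)
    obtain ⟨y, rfl⟩ := inlocq _ t ht
    have hy : y ^ 3 = (z : ℚ_[3]) := by
      apply (algebraMap ℚ_[3] Om).injective
      rw [map_pow, h3, eq_ratCast, map_ratCast]
    have hc0 : c ≠ 0 := by
      rintro rfl
      apply hw
      rw [← hc]
      norm_num
    have hz2 : z = (l : ℚ) ^ r * c ^ 3 := by
      rw [hc]
      field_simp
    have h6 : (y / (c : ℚ_[3])) ^ 3 = ((l ^ r : ℕ) : ℚ_[3]) := by
      have hcp : (c : ℚ_[3]) ≠ 0 := by exact_mod_cast hc0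
      rw [div_pow, hy, div_eq_iff (pow_ne_zero 3 hcp), hz2]
      push_cast
      ring
    refine not_cube_three ?_ _ h6
    rcases hr with rfl | rfl
    · left
      rw [pow_one]
      exact hl9
    · right
      rw [Nat.pow_mod, hl9]
  intro q hq
  by_cases hlq : (l : 𝓞 ℚ) ∈ q.asIdeal
  · rw [val_ratq hl q hlq z hz]
    obtain ⟨i, hi⟩ := hkey
    refine ⟨exp (-i), ?_⟩
    rw [hi, ← exp_nsmul]
    congr 1
    simp only [nsmul_eq_mul]
    push_cast
    ring
  · exact hval q hq hlq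

/-- **PrimQ** going up. -/
theorem primq_up {k K : Type} [Field k] [NumberField k] [Field K] [NumberField K] [Algebra k K]
    [IsGalois k K] {l : ℕ} (hU : UnrOut3 k K) (hmu : NoMu K) (hW : W3 K) (hone : OneP K l)
    (hpr : PrimQ k l) : PrimQ K l := by
  intro z hz hval hloc
  have hfin : FiniteDimensional k K := Module.Finite.of_restrictScalars_finite ℚ k K
  have hcr : ∀ x : K, x ^ 3 = 1 → x = 1 := fun x hx => eq_one_of_cube hmu hx
  have hcube : ∀ σ : K ≃ₐ[k] K, ∃ c : K, c ≠ 0 ∧ σ z = z * c ^ 3 := by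
    intro σ
    have hσz : σ z ≠ 0 := by
      intro h
      exact hz (by simpa using h)
    obtain ⟨c, hc⟩ := hW (σ z / z) (div_ne_zero hσz hz) (by
      intro q hq
      have h5 := val_equiv (σ : K ≃+* K) q z
      by_cases hlq : (l : 𝓞 K) ∈ q.asIdeal
      · have h6 : HeightOneSpectrum.comap (RingOfIntegers.mapRingEquiv (σ : K ≃+* K) : 𝓞 K →+* 𝓞 K)
            (RingOfIntegers.mapRingEquiv (σ : K ≃+* K)).surjective q = q := by
          apply hone _ _ _ hlq
          change (RingOfIntegers.mapRingEquiv (σ : K ≃+* K) : 𝓞 K →+* 𝓞 K) l ∈ q.asIdeal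
          rwa [map_natCast]
        rw [h6] at h5
        refine ⟨1, ?_⟩
        rw [map_div₀]
        have h7 : q.valuation K (σ z) = q.valuation K z := h5
        rw [h7, div_self ((Valuation.ne_zero_iff _).2 hz), one_pow]
      · obtain ⟨x, hx⟩ := hval q hq hlq
        obtain ⟨y, hy⟩ := hval (HeightOneSpectrum.comap (RingOfIntegers.mapRingEquiv (σ : K ≃+* K) :
          𝓞 K →+* 𝓞 K) (RingOfIntegers.mapRingEquiv (σ : K ≃+* K)).surjective q) (by
          intro h
          apply hq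
          have h' : (RingOfIntegers.mapRingEquiv (σ : K ≃+* K) : 𝓞 K →+* 𝓞 K) 3 ∈ q.asIdeal := h
          rwa [map_ofNat] at h') (by
          intro h
          apply hlq
          have h' : (RingOfIntegers.mapRingEquiv (σ : K ≃+* K) : 𝓞 K →+* 𝓞 K) l ∈ q.asIdeal := h
          rwa [map_natCast] at h')
        refine ⟨y / x, ?_⟩
        rw [map_div₀, div_pow, ← hx, ← hy, ← h5]
        rfl) (by
      rw [div_eq_mul_inv]
      exact locCube_mul (locCube_map hloc (σ : K ≃+* K)) (locCube_inv hloc))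
    refine ⟨c, ?_, ?_⟩
    · rintro rfl
      rw [zero_pow (by norm_num)] at hc
      exact div_ne_zero hσz hz hc.symm
    · rw [hc]
      field_simp
  obtain ⟨w, y, hw, hy, hwy⟩ := Pool.Agent.LeoK.H79.descend hcr z hz hcube
  have hwl : LocCube w := by
    intro φ
    obtain ⟨ψ, hψ⟩ := Pool.Agent.Leo3.H83.exists_ext k K φ
    obtain ⟨u, hu, hu3⟩ := hloc ψ
    have h3 : (u * ψ y) ^ 3 = φ w := by
      rw [mul_pow, hu3, ← map_pow, ← map_mul, ← hwy, ← hψ]
      rfl
    refine ⟨u * ψ y, ?_, h3⟩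
    rw [← hψ]
    apply Pool.Agent.LeoK.H79.inLoc_desc hmu ψ _ (inLoc_mul hu (inLoc_self ψ _))
    rw [h3, hψ]
    exact inLoc_self φ w
  have hwv : ValCubeQ l w := by
    intro q hq hlq
    have hqm : q.asIdeal.IsMaximal := q.isPrime.isMaximal q.ne_bot
    obtain ⟨v, hv, h3⟩ := Pool.Agent.LeoK.H79.exists_above (L := K) q hq
    have hlv := notMem_of_over q v hv hlq
    have hvp := v.isPrime
    have hu := hU v.asIdeal v.ne_bot h3
    have hram : q.asIdeal.ramificationIdx' v.asIdeal = 1 := by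
      have h2 : q.asIdeal.ramificationIdx' v.asIdeal = v.asIdeal.ramificationIdx (𝓞 k) :=
        Ideal.ramificationIdx'_eq_ramificationIdx q.asIdeal v.asIdeal q.ne_bot
      have h3 : v.asIdeal.ramificationIdx (𝓞 k) = 1 := Ideal.ramificationIdx_eq_one v.asIdeal (𝓞 k)
      exact h2.trans h3
    have hvv := HeightOneSpectrum.valuation_liesOver (K := k) K q v w
    rw [hram, pow_one] at hvv
    obtain ⟨x, hx⟩ := hval v h3 hlv
    refine ⟨x * v.valuation K y, ?_⟩
    rw [hvv, hwy, map_mul, map_pow, hx, mul_pow]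
  have h1 := Pool.Agent.LeoC.H68.valCube3_up (L := K) (hpr w hw hwv hwl)
  have h2 : z = algebraMap k K w * (y⁻¹) ^ 3 := by
    rw [hwy]
    field_simp
  rw [h2]
  exact valCube3_mul h1 (valCube3_cube _)

end Pool.Agent.LeoT.H68
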