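import Mathlib
import Pool.Agent.LeoT.Stmts
import Pool.Agent.Helper59_LeoC.Cyc
import Pool.Agent.Helper68_LeoT.Prim

/-!
# BAS: the base fields and the primes `l`

MP_5f2860_nt.
-/

set_option autoImplicit false

open NumberField IsDedekindDomain WithZero Module Polynomial
open Pool.Agent.Leo3 Pool.Agent.LeoK

namespace Pool.Agent.LeoT.H68

/-- a prime congruent to 2 modulo 9 is a primitive root modulo the powers of 3. -/
lemma order_two {l : ℕ} (hl9 : l % 9 = 2) (a : ℕ) :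
    orderOf (l : ZMod (3 ^ (a + 1))) = 2 * 3 ^ a := by
  have hl3 : l % 3 = 2 := by omega
  have hcop : Nat.Coprime l (3 ^ (a + 1)) := by
    apply Nat.Coprime.pow_right
    rw [Nat.coprime_comm, Nat.Prime.coprime_iff_not_dvd Nat.prime_three]
    omega
  apply orderOf_eq_of_pow_and_pow_div_prime (by positivity)
  · have h1 := ZMod.pow_totient (ZMod.unitOfCoprime l hcop)
    have h2 := congrArg (Units.val) h1
    rw [Units.val_pow_eq_pow_val, ZMod.coe_unitOfCoprime, Units.val_one,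
      Nat.totient_prime_pow Nat.prime_three (by omega), Nat.add_sub_cancel] at h2
    rw [mul_comm]
    exact h2
  · intro p hp hpd hx
    have hp23 : p = 2 ∨ p = 3 := by
      rcases (Nat.Prime.dvd_mul hp).1 hpd with h | h
      · left; exact (Nat.prime_dvd_prime_iff_eq hp Nat.prime_two).1 h
      · right; exact (Nat.prime_dvd_prime_iff_eq hp Nat.prime_three).1 (hp.dvd_of_dvd_pow h)
    rcases hp23 with rfl | rfl
    · rw [Nat.mul_div_cancel_left _ (by norm_num : 0 < 2)] at hx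
      have h1 := congrArg (ZMod.castHom (dvd_pow_self 3 (by omega : a + 1 ≠ 0)) (ZMod 3)) hx
      rw [map_pow, map_natCast, map_one] at h1
      have h2 : ((l : ℕ) : ZMod 3) = -1 := by
        have : ((l : ℕ) : ZMod 3) = ((l % 3 : ℕ) : ZMod 3) := by
          rw [ZMod.natCast_mod]
        rw [this, hl3]
        decide
      rw [h2, Odd.neg_one_pow (Odd.pow (by decide))] at h1
      revert h1
      decide
    · obtain _ | b := a
      · rw [pow_zero, mul_one] at hpd
        omega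
      · have h4 : 2 * 3 ^ (b + 1) / 3 = 2 * 3 ^ b := by
          rw [pow_succ, ← mul_assoc, Nat.mul_div_cancel _ (by norm_num)]
        rw [h4] at hx
        have hlpos : 1 ≤ l := by omega
        have h5 : ((l ^ (2 * 3 ^ b) - 1 : ℕ) : ZMod (3 ^ (b + 1 + 1))) = 0 := by
          rw [Nat.cast_sub (Nat.one_le_pow _ _ hlpos), Nat.cast_pow, hx, Nat.cast_one, sub_self]
        rw [ZMod.natCast_eq_zero_iff] at h5
        have h3f : Fact (Nat.Prime 3) := ⟨Nat.prime_three⟩
        have hl2 : 2 ≤ l := by omega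
        have h6 : 1 < l ^ 2 := Nat.one_lt_pow (by norm_num) hl2
        have hmod : l ^ 2 % 9 = 4 := by rw [Nat.pow_mod, hl9]
        have h7 := padicValNat.pow_sub_pow (p := 3) (by decide) (x := l ^ 2) (y := 1) h6
          (by omega) (by omega) (n := 3 ^ b) (by positivity)
        have h8 : padicValNat 3 (l ^ 2 - 1) = 1 := by
          obtain ⟨u, hu⟩ : ∃ u, l ^ 2 - 1 = 3 * u := ⟨(l ^ 2 - 1) / 3, by omega⟩
          rw [hu, padicValNat.mul (by norm_num) (by omega), padicValNat.self (by norm_num),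
            padicValNat.eq_zero_of_not_dvd (by omega)]
        rw [h8, padicValNat.prime_pow, one_pow, ← pow_mul] at h7
        have h9 : l ^ (2 * 3 ^ b) - 1 ≠ 0 := by
          have : 1 < l ^ (2 * 3 ^ b) := Nat.one_lt_pow (by positivity) hl2
          omega
        have h10 := (padicValNat_dvd_iff_le h9).1 h5
        rw [h7] at h10
        omega

/-- The prime below. -/
lemma liesOver_of_mem {K : Type} [Field K] [NumberField K] {l : ℕ} (hl : l.Prime)
    (P : HeightOneSpectrum (𝓞 K)) (h : (l : 𝓞 K) ∈ P.asIdeal) :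
    P.asIdeal.LiesOver (Ideal.span {(l : ℤ)}) := by
  refine ⟨?_⟩
  have hP := P.isPrime
  have hmax : (Ideal.span {(l : ℤ)}).IsMaximal :=
    ((Ideal.span_singleton_prime (by exact_mod_cast hl.ne_zero)).2
      (Nat.prime_iff_prime_int.1 hl)).isMaximal (by
        rw [Ne, Ideal.span_singleton_eq_bot]
        exact_mod_cast hl.ne_zero)
  apply hmax.eq_of_le (Ideal.IsPrime.ne_top inferInstance)
  rw [Ideal.span_le, Set.singleton_subset_iff]
  change (algebraMap ℤ (𝓞 K)) (l : ℤ) ∈ P.asIdeal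
  simpa using h

lemma onep_cyc {l a : ℕ} (hl : l.Prime) (hl9 : l % 9 = 2) (C : Type) [Field C] [NumberField C]
    [IsCyclotomicExtension {3 ^ (a + 1)} ℚ C] : OneP C l := by
  intro P Q hP hQ
  have hlf : Fact l.Prime := ⟨hl⟩
  have hPo := liesOver_of_mem hl P hP
  have hQo := liesOver_of_mem hl Q hQ
  have hPp := P.isPrime
  have hQp := Q.isPrime
  have hg : IsGalois ℚ C := IsCyclotomicExtension.isGalois {3 ^ (a + 1)} ℚ C
  have hnd : ¬ l ∣ 3 ^ (a + 1) := by
    intro h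
    have := (Nat.prime_dvd_prime_iff_eq hl Nat.prime_three).1 (hl.dvd_of_dvd_pow h)
    omega
  have hmax : (Ideal.span {(l : ℤ)}).IsMaximal :=
    ((Ideal.span_singleton_prime (by exact_mod_cast hl.ne_zero)).2
      (Nat.prime_iff_prime_int.1 hl)).isMaximal (by
        rw [Ne, Ideal.span_singleton_eq_bot]
        exact_mod_cast hl.ne_zero)
  have h1 := Ideal.ncard_primesOver_mul_ramificationIdxIn_mul_inertiaDegIn
    (p := Ideal.span {(l : ℤ)}) (B := 𝓞 C) (G := Gal(C/ℚ))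
  have h2 : (Ideal.span {(l : ℤ)}).inertiaDegIn (𝓞 C) = 2 * 3 ^ a := by
    rw [IsCyclotomicExtension.Rat.inertiaDegIn_eq_of_not_dvd (m := 3 ^ (a + 1)) l C hnd,
      order_two hl9]
  have h3 : Nat.card Gal(C/ℚ) = 2 * 3 ^ a := by
    rw [IsGalois.card_aut_eq_finrank, IsCyclotomicExtension.finrank C
      (Polynomial.cyclotomic.irreducible_rat (by positivity : 0 < 3 ^ (a + 1))),
      Nat.totient_prime_pow Nat.prime_three (by omega)]
    simp [mul_comm]
  rw [h2, h3] at h1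
  have h4 : (Ideal.primesOver (Ideal.span {(l : ℤ)}) (𝓞 C)).ncard *
      (Ideal.span {(l : ℤ)}).ramificationIdxIn (𝓞 C) = 1 := by
    have : 0 < 2 * 3 ^ a := by positivity
    rw [← mul_assoc] at h1
    exact Nat.eq_of_mul_eq_mul_right this (by rw [h1, one_mul])
  have h5 : (Ideal.primesOver (Ideal.span {(l : ℤ)}) (𝓞 C)).ncard = 1 :=
    Nat.eq_one_of_mul_eq_one_right h4
  obtain ⟨R, hR⟩ := Set.ncard_eq_one.1 h5
  have hP1 : P.asIdeal ∈ Ideal.primesOver (Ideal.span {(l : ℤ)}) (𝓞 C) := ⟨hPp, hPo⟩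
  have hQ1 : Q.asIdeal ∈ Ideal.primesOver (Ideal.span {(l : ℤ)}) (𝓞 C) := ⟨hQp, hQo⟩
  rw [hR, Set.mem_singleton_iff] at hP1 hQ1
  exact HeightOneSpectrum.ext (hP1.trans hQ1.symm)

lemma onep_down {K L : Type} [Field K] [NumberField K] [Field L] [NumberField L] [Algebra K L]
    {l : ℕ} (h : OneP L l) : OneP K l := by
  intro P Q hP hQ
  have key : ∀ R : HeightOneSpectrum (𝓞 K), (l : 𝓞 K) ∈ R.asIdeal →
      ∃ S : HeightOneSpectrum (𝓞 L), S.asIdeal.LiesOver R.asIdeal ∧ (l : 𝓞 L) ∈ S.asIdeal := by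
    intro R hR
    have hqm : R.asIdeal.IsMaximal := R.isPrime.isMaximal R.ne_bot
    obtain ⟨S, hSm, hSo⟩ := Ideal.exists_maximal_ideal_liesOver_of_isIntegral R.asIdeal (S := 𝓞 L)
    have hSb : S ≠ ⊥ := Ideal.ne_bot_of_liesOver_of_ne_bot R.ne_bot S
    refine ⟨⟨S, hSm.isPrime, hSb⟩, hSo, ?_⟩
    rw [hSo.over, Ideal.mem_under, map_natCast] at hR
    exact hR
  obtain ⟨P', hP', h1⟩ := key P hP
  obtain ⟨Q', hQ', h2⟩ := key Q hQ
  have h3 := h P' Q' h1 h2
  apply HeightOneSpectrum.ext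
  rw [hP'.over, hQ'.over, h3]

lemma norm_mod {K : Type} [Field K] [NumberField K] [IsGalois ℚ K] {l a : ℕ} (hl : l.Prime)
    (hl9 : l % 9 = 2) (hd : finrank ℚ K = 3 ^ a) (P : HeightOneSpectrum (𝓞 K))
    (h : (l : 𝓞 K) ∈ P.asIdeal) : Ideal.absNorm P.asIdeal % 3 = 2 := by
  have hPo := liesOver_of_mem hl P h
  have hPp := P.isPrime
  have hmax : (Ideal.span {(l : ℤ)}).IsMaximal :=
    ((Ideal.span_singleton_prime (by exact_mod_cast hl.ne_zero)).2
      (Nat.prime_iff_prime_int.1 hl)).isMaximal (by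
        rw [Ne, Ideal.span_singleton_eq_bot]
        exact_mod_cast hl.ne_zero)
  have h1 := Ideal.ncard_primesOver_mul_ramificationIdxIn_mul_inertiaDegIn
    (p := Ideal.span {(l : ℤ)}) (B := 𝓞 K) (G := Gal(K/ℚ))
  rw [IsGalois.card_aut_eq_finrank, hd, Ideal.inertiaDegIn_eq_inertiaDeg (Ideal.span {(l : ℤ)})
    P.asIdeal Gal(K/ℚ)] at h1
  have h2 : P.asIdeal.inertiaDeg ℤ ∣ 3 ^ a := by
    rw [← h1, ← mul_assoc]
    exact Dvd.intro_left _ rfl
  obtain ⟨i, -, hi⟩ := (Nat.dvd_prime_pow Nat.prime_three).1 h2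
  have h3 : Ideal.absNorm P.asIdeal = l ^ (P.asIdeal.inertiaDeg ℤ) := by
    rw [Ideal.absNorm_eq_pow_inertiaDeg' P.asIdeal hl, Ideal.inertiaDeg'_eq_inertiaDeg]
  rw [h3, hi, Nat.pow_mod, show l % 3 = 2 by omega]
  obtain ⟨u, hu⟩ : Odd (3 ^ i) := Odd.pow (by decide)
  rw [hu, pow_succ, pow_mul, Nat.mul_mod, Nat.pow_mod]
  norm_num

/-- the fields. -/
theorem exists_cyc' (a : ℕ) : ∃ (F C : Type) (_ : Field F) (_ : NumberField F) (_ : Field C)
    (_ : NumberField C) (_ : Algebra F C), IsCyclotomicExtension {3 ^ (a + 1)} ℚ C ∧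
    IsGalois ℚ F ∧ finrank ℚ F = 3 ^ a ∧ IsTotallyReal F ∧ UnrOut3 ℚ F := by
  have : NeZero (3 ^ (a + 1)) := ⟨by positivity⟩
  obtain ⟨C, _, _, hC⟩ := Pool.Agent.LeoC.H59.exists_cycfield (3 ^ (a + 1))
  have : IsAbelianGalois ℚ C := IsCyclotomicExtension.isAbelianGalois {3 ^ (a + 1)} ℚ C
  have hfin : finrank ℚ C = 2 * 3 ^ a := by
    rw [IsCyclotomicExtension.finrank C
      (Polynomial.cyclotomic.irreducible_rat (by positivity : 0 < 3 ^ (a + 1))),
      Nat.totient_prime_pow Nat.prime_three (by omega)]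
    simp [mul_comm]
  have hcard : Nat.card Gal(C/ℚ) = 2 * 3 ^ a := by
    rw [IsGalois.card_aut_eq_finrank, hfin]
  obtain ⟨σ, hσ⟩ := exists_prime_orderOf_dvd_card' 2 (G := Gal(C/ℚ)) (by rw [hcard]; simp)
  let F := IntermediateField.fixedField (Subgroup.zpowers σ)
  have h2 : finrank F C = 2 := by
    rw [IntermediateField.finrank_fixedField_eq_card, Nat.card_zpowers, hσ]
  have h3 : finrank ℚ F = 3 ^ a := by
    have := finrank_mul_finrank ℚ F C
    rw [h2, hfin] at this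
    omega
  have : NumberField F := NumberField.of_intermediateField F
  have : IsAbelianGalois ℚ F := IsAbelianGalois.tower_bot ℚ F C
  have : IsGalois ℚ F := inferInstance
  refine ⟨F, C, inferInstance, inferInstance, inferInstance, inferInstance, inferInstance,
    hC, inferInstance, h3, ?_, Pool.Agent.LeoC.H59.unr_of_cyc a C F⟩
  refine ⟨fun v => ?_⟩
  have hodd : Odd (finrank ℚ F) := by
    rw [h3]
    exact Odd.pow (by decide)
  have := IsUnramifiedAtInfinitePlaces_of_odd_finrank (k := ℚ) (K := F) hodd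
  have h4 := IsUnramifiedAtInfinitePlaces.isUnramified (k := ℚ) v
  rw [InfinitePlace.isUnramified_iff] at h4
  rcases h4 with h4 | h4
  · exact h4
  · exact absurd h4 (by
      rw [InfinitePlace.not_isComplex_iff_isReal]
      exact IsTotallyReal.isReal _)

/-- **BAS**. -/
theorem bas : BasStmt := by
  intro a
  obtain ⟨F, C, _, _, _, _, _, hC, hG, hd, hreal, hun⟩ := exists_cyc' a
  obtain ⟨hmu, hw⟩ := Pool.Agent.LeoK.H19.gup3 ℚ F a hd hun Pool.Agent.LeoK.H59.nomuq
    Pool.Agent.LeoK.H59.w3q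
  refine ⟨F, inferInstance, inferInstance, hd, hreal, hmu, hw, ?_⟩
  intro n
  obtain ⟨l, hln, hlp, hl⟩ := Nat.forall_exists_prime_gt_and_eq_mod (q := 9) (a := 2) (by decide) n
  have hl9 : l % 9 = 2 := by
    have h1 : ((l : ℕ) : ZMod 9) = ((2 : ℕ) : ZMod 9) := by exact_mod_cast hl
    rw [ZMod.natCast_eq_natCast_iff] at h1
    exact h1
  have hone : OneP F l := onep_down (L := C) (onep_cyc (a := a) hlp hl9 C)
  refine ⟨l, hln, hlp, hone, primq_up hun hmu hw hone (primq_rat hlp hl9), ?_⟩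
  -- a prime above l
  have hnu : ¬ IsUnit (l : 𝓞 F) := by
    intro h
    have h2 := h.map (Algebra.norm ℤ)
    have h3 : (l : 𝓞 F) = algebraMap ℤ (𝓞 F) (l : ℤ) := by simp
    rw [h3, Algebra.norm_algebraMap, RingOfIntegers.rank, hd, isUnit_pow_iff (by positivity),
      Int.isUnit_iff] at h2
    have h4 : (2 : ℤ) ≤ l := by exact_mod_cast hlp.two_le
    rcases h2 with h | h <;> omega
  obtain ⟨P, hP, hle⟩ := Ideal.exists_le_maximal (Ideal.span {(l : 𝓞 F)})
    (by rwa [Ne, Ideal.span_singleton_eq_top])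
  have hmem : (l : 𝓞 F) ∈ P := hle (Ideal.mem_span_singleton_self _)
  have hP0 : P ≠ ⊥ := by
    intro hbot
    rw [hbot, Ideal.mem_bot] at hmem
    exact hlp.ne_zero (by exact_mod_cast hmem)
  exact ⟨⟨P, hP.isPrime, hP0⟩, hmem, norm_mod hlp hl9 hd ⟨P, hP.isPrime, hP0⟩ hmem⟩

end Pool.Agent.LeoT.H68
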