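import Mathlib
import Pool.Agent.LeoT.Stmts
import Pool.Agent.Helper68_LeoC.Com

/-!
# EXQ: the compositum `E = K F`
-/

set_option autoImplicit false
set_option linter.unusedSectionVars false

open Module NumberField Polynomial
open Pool.Agent.LeoK Pool.Agent.LeoC.H68

namespace Pool.Agent.LeoT.H68

/-- integrality of a root. -/
lemma int_root {E : Type} [Field E] [CharZero E] {x c d : E} (hx : x ^ 3 - 3 * x = c)
    (hd : IsIntegral ℤ d) (hc : IsIntegral ℤ (d * c)) : IsIntegral ℤ (d * x) := by
  have h3 : IsIntegral ℤ (3 : E) := by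
    have : (3 : E) = algebraMap ℤ E 3 := by simp
    rw [this]
    exact isIntegral_algebraMap
  set A := integralClosure ℤ E
  have hdA : d ∈ A := hd
  have hcA : d * c ∈ A := hc
  have h1 : IsIntegral A (d * x) := by
    refine ⟨Polynomial.X ^ 3 - Polynomial.C (3 * (⟨d, hdA⟩ : A) ^ 2) * Polynomial.X -
      Polynomial.C ((⟨d, hdA⟩ : A) ^ 2 * ⟨d * c, hcA⟩), ?_, ?_⟩
    · monicity!
    · simp only [Polynomial.eval₂_sub, Polynomial.eval₂_mul, Polynomial.eval₂_pow,
        Polynomial.eval₂_X, Polynomial.eval₂_C, Polynomial.eval₂_ofNat, map_mul, map_pow,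
        map_ofNat]
      change (d * x) ^ 3 - 3 * d ^ 2 * (d * x) - d ^ 2 * (d * c) = 0
      rw [← hx]
      ring
  exact isIntegral_trans (A := A) (R := ℤ) (d * x) h1

section unr

variable {F E : Type} [Field F] [NumberField F] [Field E] [NumberField E] [Algebra F E]

/-- `E / F` is unramified outside `3 l`. -/
theorem unr_q {m t : F} {s r : F} {θ : E} (h : Cub m t s θ) (hr : r ^ 2 = 3 * m) {l j : ℕ}
    (hl : l ≠ 0) (ht : IsIntegral ℤ ((l : F) ^ j * t)) : UnrOutQ l F E := by
  obtain ⟨b, hb⟩ := exists_basis81 h hr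
  have hl0 : (l : E) ^ j ≠ 0 := pow_ne_zero _ (Nat.cast_ne_zero.2 hl)
  have hlF : (l : F) ^ j ≠ 0 := pow_ne_zero _ (Nat.cast_ne_zero.2 hl)
  -- the scaled basis
  let u : Fin 3 → Fˣ := ![1, Units.mk0 _ hlF, Units.mk0 _ hlF]
  let b' : Basis (Fin 3) F E := b.unitsSMul u
  have hb' : (b' : Fin 3 → E) = ![1, (l : E) ^ j * θ, (l : E) ^ j * th2 r s θ] := by
    funext i
    rw [Basis.unitsSMul_apply, hb]
    fin_cases i
    · simp [u]
    · simp only [u, Fin.mk_one, Fin.isValue, Matrix.cons_val_one, Matrix.cons_val_zero]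
      rw [Units.smul_def, Units.val_mk0, Algebra.smul_def, map_pow, map_natCast]
    · simp only [u, Fin.reduceFinMk, Matrix.cons_val]
      rw [Units.smul_def, Units.val_mk0, Algebra.smul_def, map_pow, map_natCast]
  have hdis : Algebra.discr F b' = 81 * (l : F) ^ (4 * j) := by
    have h1 : (b' : Fin 3 → E) = fun i => (u i : F) • (![1, θ, th2 r s θ] : Fin 3 → E) i := by
      funext i
      rw [Basis.unitsSMul_apply, hb]
      rfl
    have h2 : Algebra.traceMatrix F b' = !![3, 0, 0; 0, 6 * (l : F) ^ (2 * j), -3 * (l : F) ^ (2 * j);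
        0, -3 * (l : F) ^ (2 * j), 6 * (l : F) ^ (2 * j)] := by
      have h1 := h.tr1
      have h2 := h.trθ
      have h3 := (cub2 h hr).trθ
      have h4 := tr12 h hr
      have h5 := h.trθ2
      have h6 := (cub2 h hr).trθ2
      rw [pow_two] at h5 h6
      have e : ∀ x : E, (l : E) ^ j * x = ((l : F) ^ j) • x := fun x => by
        rw [Algebra.smul_def, map_pow, map_natCast]
      have h4' : Algebra.trace F E (th2 r s θ * θ) = -3 := by rw [mul_comm]; exact h4
      rw [hb', e, e]
      ext i j'
      rw [Algebra.traceMatrix_apply, Algebra.traceForm_apply]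
      fin_cases i <;> fin_cases j' <;>
        simp [h1, h2, h3, h4, h4', h5, h6] <;> ring
    rw [Algebra.discr_def, h2, Matrix.det_fin_three]
    simp
    ring
  have h1 : (81 * (l : 𝓞 E) ^ (4 * j)) ∈ differentIdeal (𝓞 F) (𝓞 E) := by
    apply discr_mem_different b'
    · intro i
      have hlint : IsIntegral ℤ ((l : E) ^ j) := by
        have : (l : E) ^ j = algebraMap ℤ E ((l : ℤ) ^ j) := by simp
        rw [this]
        exact isIntegral_algebraMap
      have htE : IsIntegral ℤ ((l : E) ^ j * algebraMap F E t) := by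
        have h5 := ht.map (algebraMap F E).toIntAlgHom
        have h6 : (algebraMap F E).toIntAlgHom ((l : F) ^ j * t) = (l : E) ^ j * algebraMap F E t := by
          change algebraMap F E ((l : F) ^ j * t) = _
          rw [map_mul, map_pow, map_natCast]
        rwa [h6] at h5
      have h2 : IsIntegral ℤ (b' i) := by
        rw [hb']
        have hθ := int_root h.root hlint htE
        have hψ := int_root (cub2 h hr).root hlint htE
        fin_cases i
        · exact isIntegral_one
        · exact hθ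
        · exact hψ
      exact h2.tower_top
    · rw [hdis, map_mul, map_pow, map_ofNat, map_natCast]
      rfl
  intro P hP hP0 h3 hlP
  rw [← not_dvd_differentIdeal_iff]
  intro h4
  rw [Ideal.dvd_iff_le] at h4
  have h5 : (3 : 𝓞 E) ^ 4 * (l : 𝓞 E) ^ (4 * j) ∈ P := by
    have h6 := h4 h1
    have h7 : (3 : 𝓞 E) ^ 4 * (l : 𝓞 E) ^ (4 * j) = 81 * (l : 𝓞 E) ^ (4 * j) := by norm_num
    rw [h7]
    exact h6
  rcases hP.mem_or_mem h5 with h6 | h6
  · exact h3 (hP.mem_of_pow_mem 4 h6)
  · exact hlP (hP.mem_of_pow_mem _ h6)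

end unr

/-- **EXQ**. -/
theorem exq : ExqStmt := by
  intro k K F _ _ _ _ _ _ _ _ m t s θ r l j h ht hl h2 hr hnsq
  have hK : ¬ IsSquare (algebraMap k K (3 * (m : k))) := by
    rintro ⟨x, hx⟩
    exact nsq_cubic h.deg hnsq x (by rw [hx, pow_two])
  obtain ⟨E, _, _, _, r', hE2, hr'⟩ := Pool.Agent.LEO4.H59.exists_quad K _ hK
  let _ : Algebra k E := ((algebraMap K E).comp (algebraMap k K)).toAlgebra
  have : IsScalarTower k K E := IsScalarTower.of_algebraMap_eq fun x => rfl
  obtain ⟨f, hf⟩ := quad_lift (E := E) h2 hr hnsq (r' := r') (by rw [hr']; rfl)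
  let _ : Algebra F E := f.toRingHom.toAlgebra
  have : IsScalarTower k F E := IsScalarTower.of_algebraMap_eq fun x => (f.commutes x).symm
  have hE6 : finrank k E = 6 := by
    rw [← finrank_mul_finrank k K E, h.deg, hE2]
  have hFE : finrank F E = 3 := by
    have := finrank_mul_finrank k F E
    rw [h2, hE6] at this
    omega
  have hcub : Cub (k := F) (K := E) (algebraMap k F (m : k)) (algebraMap k F t)
      (algebraMap k F s) (algebraMap K E θ) := by
    refine ⟨hFE, ?_, ?_, ?_, ?_, ?_⟩
    · rw [← IsScalarTower.algebraMap_apply k F E, IsScalarTower.algebraMap_apply k K E, ← h.root,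
        map_sub, map_mul, map_pow, map_ofNat]
    · have := congrArg (algebraMap k F) h.rel
      simpa only [map_add, map_mul, map_pow, map_ofNat] using this
    · rw [Ne, map_eq_zero]; exact h.s0
    · rw [Ne, map_eq_zero]; exact h.m0
    · exact nr_quad h2 h.nr
  have hr2 : r ^ 2 = 3 * algebraMap k F (m : k) := by
    rw [hr, map_mul, map_ofNat]
  have htF : IsIntegral ℤ ((l : F) ^ j * algebraMap k F t) := by
    have h5 := ht.map (algebraMap k F).toIntAlgHom
    have h6 : (algebraMap k F).toIntAlgHom ((l : k) ^ j * t) = (l : F) ^ j * algebraMap k F t := by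
      change algebraMap k F ((l : k) ^ j * t) = _
      rw [map_mul, map_pow, map_natCast]
    rwa [h6] at h5
  exact ⟨E, inferInstance, inferInstance, inferInstance, inferInstance, hE2,
    isGalois_ext hcub hr2, hFE, unr_q hcub hr2 hl htF⟩

end Pool.Agent.LeoT.H68
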