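import Mathlib
import Pool.Agent.LeoT.Stmts
import Pool.Agent.Helper68_LeoT.Exq
import Pool.Agent.Helper60_Leo3.Tools2

/-!
# DSQ: the discriminant of `K`

MP_5f2860_nt.
-/

set_option autoImplicit false

open Module NumberField IsDedekindDomain
open Pool.Agent.LeoC.H68 Pool.Agent.Leo3.H60

namespace Pool.Agent.LeoT.H68

/-- the multiple of the discriminant. -/
theorem discr_mul {k K : Type} [Field k] [NumberField k] [Field K] [NumberField K] [Algebra k K]
    {m : 𝓞 k} {t s : k} {θ : K} {l j : ℕ} (hl : l ≠ 0) (h : Cub (m : k) t s θ)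
    (ht : IsIntegral ℤ ((l : k) ^ j * t)) :
    ∃ n : ℤ, n ≠ 0 ∧ 108 ^ finrank ℚ k * (l : ℤ) ^ (4 * j * finrank ℚ k) * Algebra.norm ℤ m *
      discr k ^ 3 = n ^ 2 * discr K := by
  obtain ⟨b, hb⟩ := h.exists_basis
  have hlk : (l : k) ^ j ≠ 0 := pow_ne_zero _ (Nat.cast_ne_zero.2 hl)
  let u : Fin 3 → kˣ := ![1, Units.mk0 _ hlk, Units.mk0 _ hlk]
  let b' : Basis (Fin 3) k K := b.unitsSMul u
  have hb' : ∀ i, b' i = (u i : k) • (![1, θ, psi (m : k) s θ] : Fin 3 → K) i := by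
    intro i
    rw [Basis.unitsSMul_apply, hb]
    rfl
  have h1 := discr_smulTower b' (fun i => (u i : k) ^ 2 * (![3, 6, 6 * (m : k)] : Fin 3 → k) i)
    (fun i i' => by
      rw [hb', hb', smul_mul_smul_comm, map_smul, h.trace_mul i i', smul_eq_mul]
      split_ifs with h5
      · rw [h5]; ring
      · rw [mul_zero])
  have hlint : IsIntegral ℤ ((l : K) ^ j) := by
    have : (l : K) ^ j = algebraMap ℤ K ((l : ℤ) ^ j) := by simp
    rw [this]
    exact isIntegral_algebraMap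
  have htK : IsIntegral ℤ ((l : K) ^ j * algebraMap k K t) := by
    have h5 := ht.map (algebraMap k K).toIntAlgHom
    have h6 : (algebraMap k K).toIntAlgHom ((l : k) ^ j * t) = (l : K) ^ j * algebraMap k K t := by
      change algebraMap k K ((l : k) ^ j * t) = _
      rw [map_mul, map_pow, map_natCast]
    rwa [h6] at h5
  have hθ := int_root h.root hlint htK
  have hψ : IsIntegral ℤ ((l : K) ^ j * psi (m : k) s θ) := by
    have h2 : IsIntegral ℤ (((l : K) ^ j * psi (m : k) s θ) ^ 2) := by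
      have h3 : ((l : K) ^ j * psi (m : k) s θ) ^ 2 =
          -algebraMap k K (m : k) * (((l : K) ^ j * θ) ^ 2 - 4 * ((l : K) ^ j) ^ 2) := by
        rw [mul_pow, h.psi_sq]
        ring
      rw [h3]
      have hm : IsIntegral ℤ (algebraMap k K (m : k)) :=
        (RingOfIntegers.isIntegral_coe m).map (algebraMap k K).toIntAlgHom
      have h4 : IsIntegral ℤ (4 : K) := by
        have : (4 : K) = algebraMap ℤ K 4 := by simp
        rw [this]
        exact isIntegral_algebraMap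
      exact hm.neg.mul ((hθ.pow 2).sub (h4.mul (hlint.pow 2)))
    exact h2.of_pow (by norm_num)
  obtain ⟨n, hn, h2⟩ := discr_basis ((integralBasis k).smulTower b') (by
    rintro ⟨i, i'⟩
    rw [Basis.smulTower_apply, Algebra.smul_def]
    apply IsIntegral.mul
    · rw [integralBasis_apply]
      exact (RingOfIntegers.isIntegral_coe _).map (algebraMap k K).toIntAlgHom
    · rw [hb', Algebra.smul_def]
      fin_cases i'
      · simp only [u, Fin.zero_eta, Fin.isValue, Matrix.cons_val_zero, Units.val_one, map_one,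
          mul_one]
        exact isIntegral_one
      · simp only [u, Fin.mk_one, Fin.isValue, Matrix.cons_val_one, Matrix.cons_val_zero,
          Units.val_mk0, map_pow, map_natCast]
        exact hθ
      · simp only [u, Fin.reduceFinMk, Matrix.cons_val, Units.val_mk0, map_pow, map_natCast]
        exact hψ)
  rw [h1, Fin.prod_univ_three] at h2
  have h3 : ((Algebra.norm ℤ m : ℤ) : ℚ) = Algebra.norm ℚ (m : k) := Algebra.coe_norm_int m
  have h4 : ∀ c : ℚ, Algebra.norm ℚ (algebraMap ℚ k c) = c ^ finrank ℚ k := fun c =>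
    Algebra.norm_algebraMap c
  have h5 : Algebra.norm ℚ (3 : k) = 3 ^ finrank ℚ k := by
    rw [← h4]; simp
  have h6 : Algebra.norm ℚ (6 : k) = 6 ^ finrank ℚ k := by
    rw [← h4]; simp
  have h7 : Algebra.norm ℚ (l : k) = (l : ℚ) ^ finrank ℚ k := by
    rw [← h4]; simp
  simp only [u, Matrix.cons_val_zero, Matrix.cons_val_one, Matrix.cons_val_two, Matrix.head_cons,
    Matrix.tail_cons, Units.val_one, Units.val_mk0] at h2
  rw [map_mul, map_mul, map_mul, map_mul, map_pow, map_pow, map_pow, map_one, h5, h6, ← h3, h7]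
    at h2
  refine ⟨n, hn, ?_⟩
  have h8 : ((108 ^ finrank ℚ k * (l : ℤ) ^ (4 * j * finrank ℚ k) * Algebra.norm ℤ m *
      discr k ^ 3 : ℤ) : ℚ) = ((n ^ 2 * discr K : ℤ) : ℚ) := by
    push_cast
    rw [← h2, show (108 : ℚ) = 3 * 6 * 6 by norm_num, mul_pow, mul_pow]
    ring
  exact_mod_cast h8

/-- tame primes. -/
theorem tame_not_dvd (tam : TamStmt) {k K : Type} [Field k] [NumberField k] [Field K]
    [NumberField K] [Algebra k K] {l : ℕ} (hl : l.Prime) (hl3 : 3 < l) (h3 : finrank k K = 3)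
    (P : Ideal (𝓞 K)) (hP : P.IsPrime) (hP0 : P ≠ ⊥) (hlP : (l : 𝓞 K) ∈ P) :
    ¬ P * (differentIdeal (𝓞 k) (𝓞 K) ⊔ Ideal.span {(l : 𝓞 K)}) ∣ differentIdeal (𝓞 k) (𝓞 K) := by
  intro hdvd
  have hPm : P.IsMaximal := hP.isMaximal hP0
  let w : HeightOneSpectrum (𝓞 K) := ⟨P, hP, hP0⟩
  let p : HeightOneSpectrum (𝓞 k) := w.under (𝓞 k)
  have hp : p.asIdeal = P.under (𝓞 k) := rfl
  have hlp : (l : 𝓞 k) ∈ p.asIdeal := by
    rw [hp, Ideal.mem_under, map_natCast]
    exact hlP
  have hmap : Ideal.map (algebraMap (𝓞 k) (𝓞 K)) p.asIdeal ≤ P := by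
    rw [Ideal.map_le_iff_le_comap]
    exact le_refl _
  have hmap0 : Ideal.map (algebraMap (𝓞 k) (𝓞 K)) p.asIdeal ≠ ⊥ := by
    intro h0
    have h1 : algebraMap (𝓞 k) (𝓞 K) (l : 𝓞 k) ∈ Ideal.map (algebraMap (𝓞 k) (𝓞 K)) p.asIdeal :=
      Ideal.mem_map_of_mem _ hlp
    rw [h0, Ideal.mem_bot, map_natCast] at h1
    exact hl.ne_zero (by exact_mod_cast h1)
  have hPu : ¬ IsUnit P := by
    rw [Ideal.isUnit_iff]
    exact hP.ne_top
  have hfin : FiniteMultiplicity P (Ideal.map (algebraMap (𝓞 k) (𝓞 K)) p.asIdeal) :=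
    FiniteMultiplicity.of_not_isUnit hPu hmap0
  obtain ⟨Q, hQ, hPQ⟩ := hfin.exists_eq_pow_mul_and_not_dvd
  set e := multiplicity P (Ideal.map (algebraMap (𝓞 k) (𝓞 K)) p.asIdeal) with he
  have he1 : e ≠ 0 := by
    intro h0
    rw [h0, pow_zero, one_mul] at hQ
    apply hPQ
    rw [← hQ, Ideal.dvd_iff_le]
    exact hmap
  have hcop : IsCoprime (P ^ e) Q := by
    apply IsCoprime.pow_left
    rw [Ideal.isCoprime_iff_sup_eq]
    have h1 : P < P ⊔ Q := by
      refine lt_of_le_of_ne le_sup_left fun h1 => hPQ ?_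
      rw [Ideal.dvd_iff_le, h1]
      exact le_sup_right
    exact hPm.1.2 _ h1
  have htop : P ^ e ≠ ⊤ := by
    intro h1
    apply hP.ne_top
    rw [eq_top_iff, ← h1]
    exact Ideal.pow_le_self he1
  have hT := tam k K p (P ^ e) Q htop hcop hQ.symm (by
    intro i h1 h2
    rw [h3] at h2
    exact natCast_notMem hl (fun h => by have := Nat.le_of_dvd (by omega) h; omega) p hlp)
  apply hT
  -- the powers of P dividing l
  have hel : Ideal.span {(l : 𝓞 K)} ≤ P ^ e := by
    have h1 : Ideal.map (algebraMap (𝓞 k) (𝓞 K)) p.asIdeal ≤ P ^ e := by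
      rw [hQ]
      exact Ideal.mul_le_left
    refine le_trans ?_ h1
    rw [Ideal.span_le, Set.singleton_subset_iff]
    have h2 : algebraMap (𝓞 k) (𝓞 K) (l : 𝓞 k) ∈ Ideal.map (algebraMap (𝓞 k) (𝓞 K)) p.asIdeal :=
      Ideal.mem_map_of_mem _ hlp
    rwa [map_natCast] at h2
  have hind : ∀ i ≤ e, P ^ i ∣ differentIdeal (𝓞 k) (𝓞 K) := by
    intro i
    induction i with
    | zero => intro _; rw [pow_zero]; exact one_dvd _
    | succ i ih =>
      intro hi
      have h1 := ih (by omega)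
      have h2 : P ^ i ∣ differentIdeal (𝓞 k) (𝓞 K) ⊔ Ideal.span {(l : 𝓞 K)} := by
        rw [Ideal.dvd_iff_le] at h1 ⊢
        exact sup_le h1 (hel.trans (Ideal.pow_le_pow_right (by omega)))
      rw [pow_succ']
      exact (mul_dvd_mul_left P h2).trans hdvd
  exact hind e le_rfl

/-- **DSQ**. -/
theorem dsq (tam : TamStmt) : DsqStmt := by
  intro k K _ _ _ _ _ m t s θ l j hl hl3 h ht
  obtain ⟨n, hn, h1⟩ := discr_mul hl.ne_zero h ht
  have hT := fun P hP hP0 hlP => tame_not_dvd tam hl hl3 h.deg (k := k) (K := K) P hP hP0 hlP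
  have h2 := natAbs_discr_eq_absNorm_differentIdeal_mul_natAbs_discr_pow k (𝒪 := 𝓞 k) K (𝓞 K)
  rw [h.deg] at h2
  set D := differentIdeal (𝓞 k) (𝓞 K) with hD
  have hD0 : D ≠ ⊥ := differentIdeal_ne_bot
  have hk0 : (discr k).natAbs ^ 3 ≠ 0 := pow_ne_zero _ (Int.natAbs_ne_zero.mpr (discr_ne_zero k))
  -- the norm of the different
  have h3 : Ideal.absNorm D ∣ 108 ^ finrank ℚ k * (Algebra.norm ℤ m).natAbs *
      l ^ (4 * j * finrank ℚ k) := by
    have h4 := congrArg Int.natAbs h1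
    rw [Int.natAbs_mul, Int.natAbs_mul, Int.natAbs_mul, Int.natAbs_mul, Int.natAbs_pow,
      Int.natAbs_pow, Int.natAbs_pow, Int.natAbs_pow, h2, Int.natAbs_natCast,
      show (108 : ℤ).natAbs = 108 from rfl] at h4
    refine ⟨n.natAbs ^ 2, ?_⟩
    apply Nat.eq_of_mul_eq_mul_right (Nat.pos_of_ne_zero hk0)
    linarith
  -- the part above l
  set g := D ⊔ Ideal.span {(l : 𝓞 K)} with hg
  have hgD : g ∣ D := by
    rw [Ideal.dvd_iff_le]
    exact le_sup_left
  obtain ⟨B, hB⟩ := hgD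
  have hB0 : B ≠ ⊥ := by
    rintro rfl
    rw [Ideal.mul_bot] at hB
    exact hD0 hB
  have hNg : Ideal.absNorm g ∣ l ^ (3 * finrank ℚ k) := by
    have h4 : g ∣ Ideal.span {(l : 𝓞 K)} := by
      rw [Ideal.dvd_iff_le]
      exact le_sup_right
    have h5 := map_dvd Ideal.absNorm h4
    have h6 : finrank ℚ K = 3 * finrank ℚ k := by
      rw [← finrank_mul_finrank ℚ k K, h.deg, mul_comm]
    rwa [Ideal.absNorm_span_natCast, RingOfIntegers.rank, h6] at h5
  have hNB : Nat.Coprime l (Ideal.absNorm B) := by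
    rw [Nat.Prime.coprime_iff_not_dvd hl]
    intro hdvd
    obtain ⟨P, hPm, hPl, hPB⟩ := Ideal.exists_isMaximal_dvd_of_dvd_absNorm' hl B hdvd
    have hlP : (l : 𝓞 K) ∈ P := by
      have h5 : (l : ℤ) ∈ P.under ℤ := by
        rw [hPl]
        exact Ideal.mem_span_singleton_self _
      have h6 : algebraMap ℤ (𝓞 K) (l : ℤ) ∈ P := h5
      simpa using h6
    have hP0 : P ≠ ⊥ := by
      rintro rfl
      rw [Ideal.mem_bot] at hlP
      exact hl.ne_zero (by exact_mod_cast hlP)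
    apply hT P hPm.isPrime hP0 hlP
    conv_rhs => rw [hB]
    rw [mul_comm P g]
    exact mul_dvd_mul_left g hPB
  have h5 : Ideal.absNorm D = Ideal.absNorm g * Ideal.absNorm B := by
    conv_lhs => rw [hB]
    rw [map_mul]
  have hBd : Ideal.absNorm B ∣ 108 ^ finrank ℚ k * (Algebra.norm ℤ m).natAbs := by
    have h6 : Ideal.absNorm B ∣ 108 ^ finrank ℚ k * (Algebra.norm ℤ m).natAbs *
        l ^ (4 * j * finrank ℚ k) := (Dvd.intro_left _ h5.symm).trans h3
    exact Nat.Coprime.dvd_of_dvd_mul_right (Nat.Coprime.pow_right _ hNB.symm) h6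
  have hm0 : (Algebra.norm ℤ m).natAbs ≠ 0 := by
    rw [Int.natAbs_ne_zero, Ne, Algebra.norm_eq_zero_iff]
    rintro rfl
    exact h.m0 (map_zero _)
  have hle1 := Nat.le_of_dvd (by have := hl.pos; positivity) hNg
  have hle2 := Nat.le_of_dvd (by positivity) hBd
  rw [h2, h5]
  calc Ideal.absNorm g * Ideal.absNorm B * (discr k).natAbs ^ 3
      ≤ l ^ (3 * finrank ℚ k) * (108 ^ finrank ℚ k * (Algebra.norm ℤ m).natAbs) *
        (discr k).natAbs ^ 3 := by gcongr
    _ = _ := by ring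

end Pool.Agent.LeoT.H68
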