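import Mathlib
import Pool.Agent.LeoT.Stmts

/-!
# LEOT: assembly

MP_5f2860_nt.
-/

set_option autoImplicit false
set_option linter.unusedSectionVars false

open NumberField NumberField.InfinitePlace NumberField.mixedEmbedding IsDedekindDomain WithZero
  Module Filter Polynomial
open Pool.Agent.Helper85_Leo Pool.Agent.Leo3 Pool.Agent.LeoK Pool.Agent.LeoG Pool.Agent.LeoC.H59
open Pool.Agent.LeoC Pool.Agent.LeoC.H68 Pool.Agent.LEO4.H59

open scoped Classical

namespace Pool.Agent.LeoT.H68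

/-- The counting argument. -/
theorem core_q (k : Type) [Field k] [NumberField k] (c D : ℝ) (hc : 0 < c) (hD0 : 0 < D)
    (P : 𝓞 k → Prop)
    (hk : ∀ᶠ Z : ℝ in atTop, ∃ S : Finset (𝓞 k), c * Z ≤ S.card ∧
      (∀ m ∈ S, ((Algebra.norm ℤ m).natAbs : ℝ) ≤ Z ∧ P m) ∧
      (∀ m ∈ S, ∀ m' ∈ S, IsSquare ((m : k) * m') → m = m'))
    (Pr : ∀ (K : Type) [Field K] [NumberField K] [Algebra k K], Prop)
    (hPr : ∀ m : 𝓞 k, P m → ∃ (K : Type) (_ : Field K) (_ : NumberField K) (_ : Algebra k K)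
      (t s : k) (θ : K), Cub (m : k) t s θ ∧
        ((discr K).natAbs : ℝ) ≤ D * ((Algebra.norm ℤ m).natAbs : ℝ) ∧ Pr K) :
    ∃ c : ℝ, 0 < c ∧ ∀ᶠ X : ℝ in atTop,
      ∃ (I : Type) (_ : Fintype I) (K : I → Type) (_ : ∀ i, Field (K i))
        (_ : ∀ i, NumberField (K i)) (_ : ∀ i, Algebra k (K i)),
        c * X ≤ Fintype.card I ∧ (∀ i i', Nonempty (K i ≃+* K i') → i = i') ∧
        ∀ i, ((discr (K i)).natAbs : ℝ) ≤ X ∧ Pr (K i) := by
  classical
  set n := finrank ℚ k with hn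
  have hn0 : 0 < n := finrank_pos
  have hev' := (tendsto_id.atTop_div_const hD0).eventually hk
  refine ⟨c / (n * D), by positivity, ?_⟩
  filter_upwards [hev', eventually_ge_atTop (0 : ℝ)] with X hX hX0
  obtain ⟨S, hScard, hS, hSinj⟩ := hX
  simp only [id] at hScard hS
  -- the fields
  have hfield : ∀ m : {m // m ∈ S}, ∃ (K : Type) (_ : Field K) (_ : NumberField K)
      (_ : Algebra k K) (t s : k) (θ : K), Cub ((m : 𝓞 k) : k) t s θ ∧
        ((discr K).natAbs : ℝ) ≤ D * ((Algebra.norm ℤ (m : 𝓞 k)).natAbs : ℝ) ∧ Pr K :=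
    fun m => hPr m (hS m m.2).2
  choose K hF hNF hA t s θ hcub hdis hpr using hfield
  -- representatives
  obtain ⟨T, hTS, hTinj, hTcard⟩ := select (Finset.univ : Finset {m // m ∈ S})
    (fun m m' => Nonempty (K m ≃+* K m'))
    (fun m => ⟨RingEquiv.refl _⟩) (fun m m' ⟨e⟩ => ⟨e.symm⟩) n (by
      intro a ha
      have h := iso_fiber3 k ((Finset.univ.filter fun m' => Nonempty (K a ≃+* K m')).map
        ⟨Subtype.val, Subtype.val_injective⟩) (by
          intro m hm m' hm' hsq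
          rw [Finset.mem_map] at hm hm'
          obtain ⟨m₀, -, rfl⟩ := hm
          obtain ⟨m₁, -, rfl⟩ := hm'
          exact hSinj _ m₀.2 _ m₁.2 hsq) (K a) (by
          intro m hm
          rw [Finset.mem_map] at hm
          obtain ⟨m₀, hm₀, rfl⟩ := hm
          rw [Finset.mem_filter] at hm₀
          obtain ⟨-, ⟨e⟩⟩ := hm₀
          exact ⟨K m₀, hF _, hA _, t _, s _, θ _, hcub _, ⟨e.symm⟩⟩)
      rwa [Finset.card_map] at h)
  refine ⟨{m // m ∈ T}, inferInstance, fun m => K m.1, fun m => hF m.1, fun m => hNF m.1,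
    fun m => hA m.1, ?_, ?_, ?_⟩
  · rw [Fintype.card_coe]
    have h4 : ((Finset.univ : Finset {m // m ∈ S}).card : ℝ) ≤ n * T.card := by
      exact_mod_cast hTcard
    rw [Finset.card_univ, Fintype.card_coe] at h4
    have hnpos : (0 : ℝ) < n := by exact_mod_cast hn0
    have h5 : c / (n * D) * X = (c * (X / D)) / n := by
      field_simp
    rw [h5, div_le_iff₀ hnpos]
    linarith
  · rintro ⟨m, hm⟩ ⟨m', hm'⟩ he
    exact Subtype.ext (hTinj m hm m' hm' he)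
  · rintro ⟨m, hm⟩
    obtain ⟨hnm, hP⟩ := hS m.1 m.2
    refine ⟨?_, hpr m⟩
    calc ((discr (K m)).natAbs : ℝ)
        ≤ D * ((Algebra.norm ℤ m.1).natAbs : ℝ) := hdis m
      _ ≤ D * (X / D) := by gcongr
      _ = X := by field_simp

/-- **TRO**. -/
theorem tro (hbas : BasStmt) (hinr : InrStmt) (hpaq : PaqStmt) (hexq : ExqStmt) (hupq : UpqStmt)
    (hdsq : DsqStmt) (hnab : NabStmt) (hkcr : KcrStmt) (hs : StgStmt) (hi : IngStmt)
    (hl : Leo3Stmt) : TroStmt := by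
  intro a
  obtain ⟨k, _, _, hdeg, hreal, hmu, hw, hprimes⟩ := hbas a
  choose L hL1 hL2 hL3 hL4 q0 hq0 hq0' using hprimes
  -- the sequence of primes
  let n : ℕ → ℕ := fun i => Nat.rec 3 (fun _ x => L x) i
  have hn0 : n 0 = 3 := rfl
  have hns : ∀ i, n (i + 1) = L (n i) := fun i => rfl
  have hmono : StrictMono n := strictMono_nat_of_lt_succ fun i => by
    rw [hns]
    exact hL1 (n i)
  have hn3 : ∀ i, 3 ≤ n i := fun i => by
    have := hmono.monotone (Nat.zero_le i)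
    rwa [hn0] at this
  let l : ℕ → ℕ := fun i => L (n i)
  let q : ℕ → HeightOneSpectrum (𝓞 k) := fun i => q0 (n i)
  have hl3 : ∀ i, 3 < l i := fun i => lt_of_le_of_lt (hn3 i) (hL1 (n i))
  have hlp : ∀ i, (l i).Prime := fun i => hL2 (n i)
  have hlq : ∀ i, (l i : 𝓞 k) ∈ (q i).asIdeal := fun i => hq0 (n i)
  have hlmono : StrictMono l := fun i j hij => hmono (Nat.add_lt_add_right hij 1)
  have hcop : ∀ (i x : ℕ), Nat.Coprime (l i) x → (x : 𝓞 k) ∉ (q i).asIdeal := by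
    intro i x hx h
    obtain ⟨u, v, huv⟩ := Int.isCoprime_iff_gcd_eq_one.2 (by exact_mod_cast hx :
      Int.gcd (l i : ℤ) (x : ℤ) = 1)
    apply (q i).isPrime.ne_top
    rw [Ideal.eq_top_iff_one]
    have h1 : (1 : 𝓞 k) = (u : 𝓞 k) * (l i : 𝓞 k) + (v : 𝓞 k) * (x : 𝓞 k) := by
      exact_mod_cast congrArg (Int.cast : ℤ → 𝓞 k) huv.symm
    rw [h1]
    exact Ideal.add_mem _ (Ideal.mul_mem_left _ _ (hlq i)) (Ideal.mul_mem_left _ _ h)
  have hqinj : Function.Injective q := by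
    intro i j hij
    by_contra hne
    have h1 : l i ≠ l j := fun h => hne (hlmono.injective h)
    apply hcop i (l j) ((Nat.coprime_primes (hlp i) (hlp j)).2 h1)
    rw [hij]
    exact hlq j
  have hq6 : ∀ i, (6 : 𝓞 k) ∉ (q i).asIdeal := by
    intro i h
    apply hcop i 6 _ (by exact_mod_cast h)
    rw [Nat.Prime.coprime_iff_not_dvd (hlp i)]
    intro h1
    have h2 := Nat.le_of_dvd (by norm_num) h1
    have h3 := hl3 i
    have h4 := hlp i
    interval_cases l i <;> revert h1 h4 <;> norm_num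
  obtain ⟨r, c, hc, hev⟩ := hkcr k ∅ q hqinj hq6
  set D : ℝ := 108 ^ finrank ℚ k * (l r : ℝ) ^ (3 * finrank ℚ k) * ((discr k).natAbs : ℝ) ^ 3 with hD
  have hD0 : 0 < D := by
    have h1 : (discr k).natAbs ≠ 0 := Int.natAbs_ne_zero.mpr (discr_ne_zero k)
    have h2 : (0 : ℝ) < ((discr k).natAbs : ℝ) := by positivity
    have h3 : (0 : ℝ) < (l r : ℝ) := by exact_mod_cast (hlp r).pos
    positivity
  obtain ⟨c', hc', h⟩ := core_q k c D hc hD0
    (fun m => AdmG k m ∧ Sgn ∅ (mixedEmbedding k (m : k)) ∧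
      (¬ ∃ g : Q4 (𝓞 k), GIrr g ∧ mm g = m) ∧
      ∃ i < r, ∃ x : 𝓞 k, x ∉ (q i).asIdeal ∧ x ^ 2 + m ∈ (q i).asIdeal)
    (by
      filter_upwards [hev] with Z hZ
      obtain ⟨S, h1, h2, h3⟩ := hZ
      refine ⟨S, h1, fun m hm => ?_, h3⟩
      obtain ⟨h4, h5, h6, h7, h8⟩ := h2 m hm
      exact ⟨h6, h4, h5, h7, h8⟩)
    (fun K _ _ _ => nrRealPlaces K = 3 ^ (a + 1) ∧ nrComplexPlaces K = 0 ∧
      ¬ IsAbelianGalois ℚ K ∧ NoMu K ∧ W3 K ∧ Tower3 K)
    (by
      rintro m ⟨hadm, hsgn, hform, i, hir, x, hx, hxm⟩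
      have hm1 : ∀ x : k, x ^ 2 ≠ -(m : k) := Pool.Agent.LeoG.H61.thn k m hadm.three
      have hm0 : (m : k) ≠ 0 := by
        intro h0
        apply hm1 0
        rw [h0]
        ring
      obtain ⟨t, s, j, ht, h1, h2, h3⟩ := hpaq k m (l i) (q i) x (hlp i) (hl3 i) (hlq i) hx hxm hm1
      obtain ⟨K, _, _, _, θ, hcub⟩ := exists_cubic h1 h2 hm0 h3
      have hnsq : ¬ IsSquare (3 * (m : k)) := by
        rintro ⟨x, hx⟩
        exact hadm.nsq x (by rw [hx, pow_two])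
      obtain ⟨F, _, _, _, r', hF2, hr⟩ := Pool.Agent.LEO4.H59.exists_quad k _ hnsq
      obtain ⟨-, hgood⟩ := good_of hs hi k ∅ F m r' hF2 hr hadm hsgn hform
      obtain ⟨h10, h11, -, -⟩ := hgood.rat hmu hw
      have hone := hinr k F m r' (l i) (q i) x hF2 hr (hlp i) (hl3 i) (hL3 (n i)) (hlq i)
        (hq0' (n i)) hx hxm
      obtain ⟨E, _, _, _, _, hE2, hG, hE3, hun⟩ := hexq k K F m t s θ r' (l i) j hcub ht
        (hlp i).ne_zero hF2 hr hadm.nsq
      obtain ⟨h20, h21⟩ := hupq k F E (l i) hF2 hE3 hun hone (hL4 (n i)) h10 h11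
      obtain ⟨h12, h13⟩ := dwn3 (K := K) (L := E) hE2 h20 h21
      obtain ⟨h14, h15⟩ := sig3 hcub hsgn
      rw [Set.ncard_empty, mul_zero, add_zero] at h14
      rw [Set.ncard_empty, add_zero] at h15
      have h16 : nrComplexPlaces k = 0 := nrComplexPlaces_eq_zero_iff.2 hreal
      have h17 := card_add_two_mul_card_eq_rank k
      rw [hdeg] at h17
      refine ⟨K, inferInstance, inferInstance, inferInstance, t, s, θ, hcub, ?_, ?_, ?_,
        hnab k K m t s θ hcub hadm.nsq, h12, h13, tower_of hl h12 h13⟩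
      · have h30 := hdsq k K m t s θ (l i) j (hlp i) (hl3 i) hcub ht
        have h31 : ((discr K).natAbs : ℝ) ≤ 108 ^ finrank ℚ k * (l i : ℝ) ^ (3 * finrank ℚ k) *
            ((Algebra.norm ℤ m).natAbs : ℝ) * ((discr k).natAbs : ℝ) ^ 3 := by
          exact_mod_cast h30
        have h32 : (l i : ℝ) ≤ l r := by exact_mod_cast hlmono.monotone hir.le
        refine h31.trans ?_
        rw [hD]
        have h33 : (l i : ℝ) ^ (3 * finrank ℚ k) ≤ (l r : ℝ) ^ (3 * finrank ℚ k) :=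
          pow_le_pow_left₀ (by positivity) h32 _
        calc 108 ^ finrank ℚ k * (l i : ℝ) ^ (3 * finrank ℚ k) *
            ((Algebra.norm ℤ m).natAbs : ℝ) * ((discr k).natAbs : ℝ) ^ 3
            ≤ 108 ^ finrank ℚ k * (l r : ℝ) ^ (3 * finrank ℚ k) *
            ((Algebra.norm ℤ m).natAbs : ℝ) * ((discr k).natAbs : ℝ) ^ 3 := by gcongr
          _ = _ := by ring
      · rw [h14, pow_succ]
        omega
      · rw [h15, h16])
  refine ⟨c', hc', ?_⟩
  filter_upwards [h] with X hX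
  obtain ⟨I, hI, K, hF, hNF, hA, h1, h2, h3⟩ := hX
  refine ⟨I, hI, K, hF, hNF, h1, h2, fun i => ?_⟩
  obtain ⟨h4, h5, h6, h7, h8⟩ := h3 i
  exact ⟨h5, h6, h4, h7, h8⟩

/-- **TOWF**. -/
theorem towf (ha : TowallStmt) (ht : TroStmt) : TowfStmt := by
  intro j a r₁ r₂ h1 hn
  by_cases h : j = 0 → r₂ ≠ 0
  · exact ha j a r₁ r₂ h1 h hn
  · push Not at h
    obtain ⟨rfl, rfl⟩ := h
    rw [pow_zero, one_mul] at h1 hn
    obtain _ | a := a
    · rw [pow_zero] at h1
      omega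
    · obtain ⟨c, hc, hev⟩ := ht a
      refine ⟨c, hc, ?_⟩
      filter_upwards [hev] with X hX
      obtain ⟨I, hI, K, hF, hNF, h3, h4, h5⟩ := hX
      refine ⟨I, hI, K, hF, hNF, h3, h4, fun i => ?_⟩
      obtain ⟨h6, h7, h8, h9, h10⟩ := h5 i
      refine ⟨by omega, h7, h8, fun _ => h9, h10⟩

end Pool.Agent.LeoT.H68
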