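import Pool.Agent.LeoC.Asm
import Pool.Agent.Helper68_LeoC.Asm
import Pool.Agent.Helper68_LeoT.Bas
import Pool.Agent.Helper68_LeoT.Dsq
import Pool.Agent.Helper68_LeoT.Exq
import Pool.Agent.Helper68_LeoT.Tro
import Pool.Agent.Helper68_LeoT.Upq
import Pool.Agent.Helper2_LeoT.Inr
import Pool.Agent.Helper2_LeoT.Sqc
import Pool.Agent.Helper5_LeoT.Nab
import Pool.Agent.Helper65_LeoT.Kcr
import Pool.Agent.Helper83_LeoT.Tam
import Pool.Agent.Helper84_LeoT.Paq
import Pool.Agent.Helper89_LeoT.Nsp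
import Pool.Agent.Helper86_LeoD.Crd

/-!
# All degrees `2 ^ j * 3 ^ a` and all signatures: the final theorem without hypotheses

MP_5f2860_nt.
-/

set_option autoImplicit false

namespace Pool.Agent.LeoT.H68

theorem kcr_all : KcrStmt :=
  H65.kcr LeoC.Asm.cnt LeoC.Asm.adc LeoC.H27.fra LeoC.Asm.evs (H89.nsp LeoC.H17.cov LeoK.H24.sft LeoC.Asm.evs) H2.sqc LeoD.H86.crd

theorem tro_all : TroStmt :=
  tro bas H2.inr H84.paq exq upq (dsq H83.tam) H5.nab kcr_all LeoC.Asm.stg LeoC.Asm.ing LeoC.Asm.leo3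

/-- **TOWF**. -/
theorem towf_all : TowfStmt := towf LeoC.H68.towall_all tro_all

end Pool.Agent.LeoT.H68
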